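import Pool.Agent.helper34.AC.Spec4

/-!
# ac:ISA Isomorphic graphs have the same average
-/

set_option autoImplicit false

namespace Pool.Agent.helper34.AC

theorem ISA_stab {V V' : Type} (G : SimpleGraph V) (G' : SimpleGraph V') (e : G ≃g G')
    (S : Finset V) : Stab G S → Stab G' (e.toEquiv.finsetCongr S) := by
  intro h x hx y hy hxy
  rw [Equiv.finsetCongr_apply, Finset.mem_map_equiv] at hx hy
  apply h _ hx _ hy
  have h1 := (e.map_adj_iff (v := e.toEquiv.symm x) (w := e.toEquiv.symm y)).1
  apply h1
  have h2 : e (e.toEquiv.symm x) = x := e.toEquiv.apply_symm_apply x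
  have h3 : e (e.toEquiv.symm y) = y := e.toEquiv.apply_symm_apply y
  rw [h2, h3]
  exact hxy

theorem ISA_col {V V' : Type} [Fintype V] [Fintype V'] (G : SimpleGraph V) (G' : SimpleGraph V')
    (e : G ≃g G') (P : Finset (Finset V)) (h : IsCol G Finset.univ P) :
    IsCol G' Finset.univ (e.toEquiv.finsetCongr.finsetCongr P) := by
  constructor
  · intro S hS
    rw [Equiv.finsetCongr_apply, Finset.mem_map_equiv] at hS
    obtain ⟨h1, -, h3⟩ := h.1 _ hS
    have h4 : S = e.toEquiv.finsetCongr (e.toEquiv.finsetCongr.symm S) :=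
      (Equiv.apply_symm_apply _ _).symm
    refine ⟨?_, Finset.subset_univ _, ?_⟩
    · rw [h4, Equiv.finsetCongr_apply, Finset.map_nonempty]
      exact h1
    · rw [h4]
      exact ISA_stab G G' e _ h3
  · intro v _
    obtain ⟨S, ⟨hS, hv⟩, hu⟩ := h.2 (e.toEquiv.symm v) (Finset.mem_univ _)
    refine ⟨e.toEquiv.finsetCongr S, ⟨?_, ?_⟩, ?_⟩
    · rw [Equiv.finsetCongr_apply, Finset.mem_map_equiv, Equiv.symm_apply_apply]
      exact hS
    · rw [Equiv.finsetCongr_apply, Finset.mem_map_equiv]
      exact hv
    · rintro T ⟨hT, hvT⟩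
      rw [Equiv.finsetCongr_apply, Finset.mem_map_equiv] at hT
      have h4 : T = e.toEquiv.finsetCongr (e.toEquiv.finsetCongr.symm T) :=
        (Equiv.apply_symm_apply _ _).symm
      have h5 : e.toEquiv.finsetCongr.symm T = S := by
        apply hu
        refine ⟨hT, ?_⟩
        rw [h4, Equiv.finsetCongr_apply, Finset.mem_map_equiv] at hvT
        exact hvT
      rw [h4, h5]

theorem ISA : ISA_stmt := by
  classical
  intro V V' _ _ G G' ⟨e⟩
  have h1 : col G' Finset.univ
      = (col G Finset.univ).map e.toEquiv.finsetCongr.finsetCongr.toEmbedding := by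
    ext P
    rw [Finset.mem_map_equiv]
    constructor
    · intro hP
      have h2 := (Finset.mem_filter.1 hP).2
      refine Finset.mem_filter.2 ⟨?_, ?_⟩
      · simp
      · exact ISA_col G' G e.symm P h2
    · intro hP
      have h2 := (Finset.mem_filter.1 hP).2
      refine Finset.mem_filter.2 ⟨?_, ?_⟩
      · simp
      · have h3 := ISA_col G G' e _ h2
        rwa [Equiv.apply_symm_apply] at h3
  unfold avg
  rw [h1, Finset.sum_map, Finset.card_map]
  congr 1
  apply Finset.sum_congr rfl
  intro P _
  simp [Equiv.finsetCongr_apply]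

end Pool.Agent.helper34.AC
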